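import Pool.Agent.X284.KS.Fam2
import Pool.Agent.Y683.AA.TWc

/-!
# The triple products of a newform with two Eisenstein series of weight one

Let `f` be a newform of even weight `k = 2m`, level `N` and character `χ_f`, and let `α`, `β` be
primitive Dirichlet characters of opposite parity and of conductors prime to `N`.  The Eisenstein
series `g = E_1(1, (χ_f α β)⁻¹)` and `h = E_1(α, β)` have weight one, `χ_f χ_g χ_h = 1` and
`V_g ⊗ V_h = α ⊕ β ⊕ (χ_f α)⁻¹ ⊕ (χ_f β)⁻¹`.  Since `f ⊗ χ_f⁻¹` is the complex conjugate of `f`,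
`L(f ⊗ g ⊗ h, s) = L(f ⊗ α, s) L(f ⊗ β, s) conj(L(f ⊗ α, conj s)) conj(L(f ⊗ β, conj s))`.

We show that this function does not vanish at `s = m = k/2` for almost all pairs `(α, β)`.
-/

set_option autoImplicit false

open Complex UpperHalfPlane MatrixGroups CongruenceSubgroup

namespace Pool.Agent.Results.MP_60ff09_nt.EisensteinTriples

/-- The `n`-th Fourier coefficient of `f`. -/
noncomputable def coef {N : ℕ} {k : ℤ} (f : CuspForm (Gamma1 N : Subgroup (GL (Fin 2) ℝ)) k)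
    (n : ℕ) : ℂ :=
  (qExpansion 1 f).coeff n

/-- `f ∈ S_{2m}(Γ₁(N))` is a newform of level `N` with character `η`: the Fourier coefficients
`c(n)` satisfy `c(1) = 1`, `c(ab) = c(a) c(b)` for coprime `a`, `b`,
`c(p^(j+2)) = c(p) c(p^(j+1)) - η(p) p^(2m-1) c(p^j)`; for the primes `p ∤ N`
`conj c(p) = conj η(p) c(p)` and `|c(p)| ≤ 2 p^((2m-1)/2)` (Eichler, Shimura, Deligne), for the
primes `p ∣ N` `|c(p)| ≤ p^((2m-1)/2)`; `f(γτ) = η(d) (cτ + d)^(2m) f(τ)` for
`γ = (a b; c d) ∈ Γ₀(N)`; and the Fricke involution takes `f` to a multiple of `f^c`,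
`f^c(τ) = conj f(-conj τ)` (Atkin, Lehner, Li):
`f(-1/(Nτ)) = (-1)^m w N^m τ^(2m) f^c(τ)` with `|w| = 1`. -/
structure IsNewform (m N : ℕ) (η : DirichletCharacter ℂ N)
    (f : CuspForm (Gamma1 N : Subgroup (GL (Fin 2) ℝ)) (2 * m : ℤ)) (w : ℂ) : Prop where
  one : coef f 1 = 1
  mul : ∀ a b : ℕ, Nat.Coprime a b → coef f (a * b) = coef f a * coef f b
  pow : ∀ p j : ℕ, p.Prime → coef f (p ^ (j + 2)) = coef f p * coef f (p ^ (j + 1)) -
    η (p : ZMod N) * (p : ℂ) ^ (2 * m - 1) * coef f (p ^ j)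
  conj : ∀ p : ℕ, p.Prime → ¬ p ∣ N → (starRingEnd ℂ) (coef f p) =
    (starRingEnd ℂ) (η (p : ZMod N)) * coef f p
  good : ∀ p : ℕ, p.Prime → ¬ p ∣ N → ‖coef f p‖ ≤ 2 * (p : ℝ) ^ ((2 * m - 1 : ℝ) / 2)
  bad : ∀ p : ℕ, p.Prime → p ∣ N → ‖coef f p‖ ≤ (p : ℝ) ^ ((2 * m - 1 : ℝ) / 2)
  neb : ∀ γ : SL(2, ℤ), γ ∈ Gamma0 N → ∀ τ : ℍ, f (γ • τ) = η ((γ 1 1 : ℤ) : ZMod N) *
    (((γ 1 0 : ℤ) : ℂ) * (τ : ℂ) + ((γ 1 1 : ℤ) : ℂ)) ^ (2 * m) * f τ
  norm : ‖w‖ = 1
  fricke : ∀ τ τ' τc : ℍ, (τ' : ℂ) * ((N : ℂ) * (τ : ℂ)) = -1 →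
    (τc : ℂ) = -(starRingEnd ℂ) (τ : ℂ) →
    f τ' = (-1 : ℂ) ^ m * w * (N : ℂ) ^ m * (τ : ℂ) ^ (2 * m) * (starRingEnd ℂ) (f τc)

/-- A newform `f` of even weight `2m ≥ 2`, level `N ≥ 1` and character `η`. -/
structure Newform where
  /-- the level -/
  N : ℕ
  N_ne : N ≠ 0
  /-- half of the weight -/
  m : ℕ
  m_pos : 1 ≤ m
  /-- the character -/
  η : DirichletCharacter ℂ N
  /-- the form -/
  f : CuspForm (Gamma1 N : Subgroup (GL (Fin 2) ℝ)) (2 * m : ℤ)
  /-- the constant of the Fricke involution -/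
  w : ℂ
  newform : IsNewform m N η f w

/-- The Euler factor at the prime `p` of the `L`-function of `f ⊗ χ`:
`(1 - χ(p) c(p) p^(-s) + χ(p)² η(p) p^(2m-1) p^(-2s))⁻¹`. -/
noncomputable def Newform.factor (P : Newform) {q : ℕ} (χ : DirichletCharacter ℂ q) (s : ℂ)
    (p : ℕ) : ℂ :=
  (1 - χ (p : ZMod q) * coef P.f p * (p : ℂ) ^ (-s) +
    χ (p : ZMod q) ^ 2 * (P.η (p : ZMod P.N) * (p : ℂ) ^ (2 * P.m - 1)) * (p : ℂ) ^ (-2 * s))⁻¹

/-- The Euler factor at the prime `p` of the `L`-function of the complex conjugate of `f ⊗ χ`, which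
is `f ⊗ (χ_f χ)⁻¹`:
`(1 - conj(χ(p) c(p)) p^(-s) + conj(χ(p)² η(p)) p^(2m-1) p^(-2s))⁻¹`. -/
noncomputable def Newform.dual (P : Newform) {q : ℕ} (χ : DirichletCharacter ℂ q) (s : ℂ)
    (p : ℕ) : ℂ :=
  (1 - (starRingEnd ℂ) (χ (p : ZMod q) * coef P.f p) * (p : ℂ) ^ (-s) +
    (starRingEnd ℂ) (χ (p : ZMod q) ^ 2 * P.η (p : ZMod P.N)) * (p : ℂ) ^ (2 * P.m - 1) *
      (p : ℂ) ^ (-2 * s))⁻¹

/-- The Euler factor at the prime `p` of the `L`-function of
`V_f ⊗ (α ⊕ β ⊕ (χ_f α)⁻¹ ⊕ (χ_f β)⁻¹)`, for primitive `α`, `β` of conductors prime to `N`.  If `α`,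
`β` have opposite parity, this is the triple product `L`-function of `f` and of the Eisenstein series
`g = E_1(1, (χ_f α β)⁻¹)` and `h = E_1(α, β)` of weight one. -/
noncomputable def Newform.triple (P : Newform) {a b : ℕ} (α : DirichletCharacter ℂ a)
    (β : DirichletCharacter ℂ b) (s : ℂ) (p : ℕ) : ℂ :=
  P.factor α s p * P.factor β s p * (P.dual α s p * P.dual β s p)

/-- The primitive Dirichlet characters of conductor at most `X` and prime to `N`. -/
def Characters (N X : ℕ) : Set (Σ q : ℕ, DirichletCharacter ℂ q) :=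
  {x | 1 ≤ x.1 ∧ x.1 ≤ X ∧ Nat.Coprime x.1 N ∧ x.2.IsPrimitive}

/-- the same newform in the library -/
noncomputable def Newform.lib (P : Newform) : Pool.Agent.X284.KS.Newform :=
  have : NeZero P.N := ⟨P.N_ne⟩
  { N := P.N
    m := P.m
    m_pos := P.m_pos
    η := P.η
    f := P.f
    w := P.w
    newf := ⟨P.newform.one, P.newform.mul, P.newform.pow, P.newform.conj, P.newform.good,
      P.newform.bad, P.newform.neb, P.newform.norm, P.newform.fricke⟩ }

theorem factor_eq (P : Newform) {q : ℕ} (χ : DirichletCharacter ℂ q) (s : ℂ) (p : ℕ) :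
    P.factor χ s p = Pool.Agent.X284.KS.eulN (Pool.Agent.W192.CY.cf P.lib.f) P.lib.u q χ s p := by
  have e : (p : ℂ) ^ (-2 * s) = ((p : ℂ) ^ (-s)) ^ 2 := by
    rw [show -2 * s = ((2 : ℕ) : ℂ) * (-s) by push_cast; ring, Complex.cpow_nat_mul]
  unfold Newform.factor Pool.Agent.X284.KS.eulN
  have e2 : χ (p : ZMod q) ^ 2 * (P.η (p : ZMod P.N) * (p : ℂ) ^ (2 * P.m - 1)) *
      (p : ℂ) ^ (-2 * s) = χ (p : ZMod q) ^ 2 * (P.lib.u p * ((p : ℂ) ^ (-s)) ^ 2) := by
    rw [e, mul_assoc]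
    rfl
  rw [e2]
  rfl

theorem dual_eq (P : Newform) {q : ℕ} (χ : DirichletCharacter ℂ q) (s : ℂ) (p : ℕ) :
    P.dual χ s p = (starRingEnd ℂ) (P.factor χ ((starRingEnd ℂ) s) p) := by
  have hc : ∀ z : ℂ, (starRingEnd ℂ) ((p : ℂ) ^ ((starRingEnd ℂ) z)) = (p : ℂ) ^ z := by
    intro z
    have h1 := Complex.cpow_conj (p : ℂ) z (by rw [Complex.natCast_arg]; exact Real.pi_pos.ne)
    rw [h1, Complex.conj_natCast, Complex.conj_conj]
  unfold Newform.dual Newform.factor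
  rw [map_inv₀, map_add, map_sub, map_one]
  have h1 : -(starRingEnd ℂ) s = (starRingEnd ℂ) (-s) := by rw [map_neg]
  have h2 : -2 * (starRingEnd ℂ) s = (starRingEnd ℂ) (-2 * s) := by
    rw [map_mul, map_neg, map_ofNat]
  have e1 : (starRingEnd ℂ) (χ (p : ZMod q) * coef P.f p * (p : ℂ) ^ ((starRingEnd ℂ) (-s))) =
      (starRingEnd ℂ) (χ (p : ZMod q) * coef P.f p) * (p : ℂ) ^ (-s) := by
    rw [map_mul _ _ ((p : ℂ) ^ ((starRingEnd ℂ) (-s))), hc]
  have e2 : (starRingEnd ℂ) (χ (p : ZMod q) ^ 2 * (P.η (p : ZMod P.N) *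
      (p : ℂ) ^ (2 * P.m - 1)) * (p : ℂ) ^ ((starRingEnd ℂ) (-2 * s))) =
      (starRingEnd ℂ) (χ (p : ZMod q) ^ 2 * P.η (p : ZMod P.N)) * (p : ℂ) ^ (2 * P.m - 1) *
        (p : ℂ) ^ (-2 * s) := by
    rw [map_mul _ _ ((p : ℂ) ^ ((starRingEnd ℂ) (-2 * s))), hc, ← mul_assoc (χ (p : ZMod q) ^ 2),
      map_mul _ _ ((p : ℂ) ^ (2 * P.m - 1)), map_pow _ (p : ℂ), Complex.conj_natCast]
  rw [h1, h2, e1, e2]

open Pool.Agent.Y683.AA (cj diff_cj order_cj)

/-- **Main theorem.** Let `f` be a newform of even weight `2m`, level `N` and arbitrary character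
`χ_f`.  There are functions `T α β`, for all primitive Dirichlet characters `α`, `β` of conductors
prime to `N`, with the following properties.

* `T α β` is entire, does not vanish identically, has an even order of vanishing at `s = m` and is for
  `Re s > m + 1/2` the Euler product of the factors of the `L`-function of
  `V_f ⊗ (α ⊕ β ⊕ (χ_f α)⁻¹ ⊕ (χ_f β)⁻¹)`.
* For every `ε > 0` there is a `q₀` such that `T α β m ≠ 0` for all `α`, `β` of conductors `a, b ≥ q₀`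
  and orders at least `a^(3/4 + ε)` and `b^(3/4 + ε)`.
* There are `C`, `c > 0` such that for all `X ≥ 1` the proportion of the pairs `(α, β)` of primitive
  characters of conductors at most `X` prime to `N` with `T α β m = 0`, and also the average over all
  these pairs of the order of vanishing of `T α β` at `m`, is at most `C exp(-c (log X)^(1/3))`. -/
theorem result (P : Newform) :
    ∃ T : (a : ℕ) → DirichletCharacter ℂ a → (b : ℕ) → DirichletCharacter ℂ b → ℂ → ℂ,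
      (∀ (a : ℕ) (α : DirichletCharacter ℂ a) (b : ℕ) (β : DirichletCharacter ℂ b),
        1 ≤ a → 1 ≤ b → Nat.Coprime a P.N → Nat.Coprime b P.N → α.IsPrimitive → β.IsPrimitive →
        Differentiable ℂ (T a α b β) ∧ analyticOrderAt (T a α b β) P.m ≠ ⊤ ∧
        Even (analyticOrderNatAt (T a α b β) P.m) ∧
        ∀ s : ℂ, (P.m : ℝ) + 1 / 2 < s.re →
          HasProd (fun p : Nat.Primes => P.triple α β s p) (T a α b β s)) ∧
      (∀ ε : ℝ, 0 < ε → ∃ q₀ : ℝ, ∀ a b : ℕ, q₀ ≤ a → q₀ ≤ b → 1 < a → 1 < b →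
        Nat.Coprime a P.N → Nat.Coprime b P.N →
        ∀ (α : DirichletCharacter ℂ a) (β : DirichletCharacter ℂ b),
          α.IsPrimitive → β.IsPrimitive → (a : ℝ) ^ (3 / 4 + ε) ≤ orderOf α →
          (b : ℝ) ^ (3 / 4 + ε) ≤ orderOf β → T a α b β P.m ≠ 0) ∧
      ∃ C c : ℝ, 0 < C ∧ 0 < c ∧ ∀ X : ℕ, 1 ≤ X →
        (({y ∈ Characters P.N X ×ˢ Characters P.N X |
          T y.1.1 y.1.2 y.2.1 y.2.2 P.m = 0}.ncard : ℕ) : ℝ) ≤
            C * Real.exp (-c * (Real.log X) ^ ((1 : ℝ) / 3)) *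
              ((Characters P.N X).ncard : ℝ) ^ 2 ∧
        ((∑ᶠ y ∈ Characters P.N X ×ˢ Characters P.N X,
          analyticOrderNatAt (T y.1.1 y.1.2 y.2.1 y.2.2) P.m : ℕ) : ℝ) ≤
            C * Real.exp (-c * (Real.log X) ^ ((1 : ℝ) / 3)) *
              ((Characters P.N X).ncard : ℝ) ^ 2 := by
  classical
  obtain ⟨K0, L, hK0, hL, hG⟩ := Pool.Agent.X284.KS.single P.lib
  set M : ℕ := P.N with hM
  have hM1 : 1 ≤ M := Nat.one_le_iff_ne_zero.2 P.N_ne
  set G : (q : ℕ) → DirichletCharacter ℂ q → ℕ := fun q χ => analyticOrderNatAt (L q χ) P.m with hGd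
  set T : (a : ℕ) → DirichletCharacter ℂ a → (b : ℕ) → DirichletCharacter ℂ b → ℂ → ℂ :=
    fun a α b β s => L a α s * L b β s * (cj (L a α) s * cj (L b β) s) with hT
  have hreal : (starRingEnd ℂ) (P.m : ℂ) = P.m := Complex.conj_natCast _
  have hord : ∀ (a : ℕ) (α : DirichletCharacter ℂ a) (b : ℕ) (β : DirichletCharacter ℂ b),
      1 ≤ a → 1 ≤ b → Nat.Coprime a M → Nat.Coprime b M → α.IsPrimitive → β.IsPrimitive →
      analyticOrderAt (T a α b β) P.m = ((2 * (G a α + G b β) : ℕ) : ℕ∞) := by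
    intro a α b β ha hb haM hbM hα hβ
    obtain ⟨dα, -, nα⟩ := hL a α ha haM hα
    obtain ⟨dβ, -, nβ⟩ := hL b β hb hbM hβ
    have aα : AnalyticAt ℂ (L a α) P.m := dα.analyticAt _
    have aβ : AnalyticAt ℂ (L b β) P.m := dβ.analyticAt _
    have bα : AnalyticAt ℂ (cj (L a α)) P.m := (diff_cj dα).analyticAt _
    have bβ : AnalyticAt ℂ (cj (L b β)) P.m := (diff_cj dβ).analyticAt _
    have oα : analyticOrderAt (L a α) P.m = (G a α : ℕ∞) :=
      (Nat.cast_analyticOrderNatAt nα).symm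
    have oβ : analyticOrderAt (L b β) P.m = (G b β : ℕ∞) :=
      (Nat.cast_analyticOrderNatAt nβ).symm
    have cα : analyticOrderAt (cj (L a α)) P.m = (G a α : ℕ∞) := by
      rw [order_cj (dα.analyticAt _), hreal, oα]
    have cβ : analyticOrderAt (cj (L b β)) P.m = (G b β : ℕ∞) := by
      rw [order_cj (dβ.analyticAt _), hreal, oβ]
    have e : T a α b β = (L a α * L b β) * (cj (L a α) * cj (L b β)) := rfl
    rw [e, analyticOrderAt_mul (aα.mul aβ) (bα.mul bβ), analyticOrderAt_mul aα aβ,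
      analyticOrderAt_mul bα bβ, oα, oβ, cα, cβ]
    norm_cast
    ring
  have hnat : ∀ (a : ℕ) (α : DirichletCharacter ℂ a) (b : ℕ) (β : DirichletCharacter ℂ b),
      1 ≤ a → 1 ≤ b → Nat.Coprime a M → Nat.Coprime b M → α.IsPrimitive → β.IsPrimitive →
      analyticOrderNatAt (T a α b β) P.m = 2 * (G a α + G b β) := by
    intro a α b β ha hb haM hbM hα hβ
    have h1 := hord a α b β ha hb haM hbM hα hβ
    unfold analyticOrderNatAt
    rw [h1]
    rfl
  have hdiff : ∀ (a : ℕ) (α : DirichletCharacter ℂ a) (b : ℕ) (β : DirichletCharacter ℂ b),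
      1 ≤ a → 1 ≤ b → Nat.Coprime a M → Nat.Coprime b M → α.IsPrimitive → β.IsPrimitive →
      Differentiable ℂ (T a α b β) := by
    intro a α b β ha hb haM hbM hα hβ
    have dα := (hL a α ha haM hα).1
    have dβ := (hL b β hb hbM hβ).1
    exact (dα.mul dβ).mul ((diff_cj dα).mul (diff_cj dβ))
  have hzero : ∀ (a : ℕ) (α : DirichletCharacter ℂ a) (b : ℕ) (β : DirichletCharacter ℂ b),
      1 ≤ a → 1 ≤ b → Nat.Coprime a M → Nat.Coprime b M → α.IsPrimitive → β.IsPrimitive →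
      (T a α b β P.m = 0 ↔ G a α + G b β ≠ 0) := by
    intro a α b β ha hb haM hbM hα hβ
    have h2 := ((hdiff a α b β ha hb haM hbM hα hβ).analyticAt (P.m : ℂ)).analyticOrderAt_eq_zero
    rw [hord a α b β ha hb haM hbM hα hβ] at h2
    constructor
    · intro h3 h4
      rw [h4] at h2
      exact h2.1 rfl h3
    · intro h3
      by_contra h4
      have h5 := h2.2 h4
      have h6 : 2 * (G a α + G b β) = 0 := by exact_mod_cast h5
      exact h3 (by omega)
  refine ⟨T, ?_, ?_, ?_⟩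
  · intro a α b β ha hb haM hbM hα hβ
    refine ⟨hdiff a α b β ha hb haM hbM hα hβ, ?_, ?_, ?_⟩
    · rw [hord a α b β ha hb haM hbM hα hβ]
      exact ENat.natCast_ne_top _
    · rw [hnat a α b β ha hb haM hbM hα hβ]
      exact even_two_mul _
    · intro s hs
      have hs' : (P.m : ℝ) + 1 / 2 < ((starRingEnd ℂ) s).re := by rwa [Complex.conj_re]
      have key : ∀ (q : ℕ) (χ : DirichletCharacter ℂ q), 1 ≤ q → Nat.Coprime q M →
          χ.IsPrimitive → HasProd (fun p : Nat.Primes => P.factor χ s p) (L q χ s) ∧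
            HasProd (fun p : Nat.Primes => P.dual χ s p) (cj (L q χ) s) := by
        intro q χ hq hqM hχ
        have h1 : ∀ z : ℂ, (P.m : ℝ) + 1 / 2 < z.re →
            HasProd (fun p : Nat.Primes => P.factor χ z p) (L q χ z) := by
          intro z hz
          refine (congrArg (fun g => HasProd g (L q χ z)) (funext fun p => ?_)).mpr
            ((hL q χ hq hqM hχ).2.1 z hz)
          exact factor_eq P χ _ p
        refine ⟨h1 s hs, ?_⟩
        have h2 := (h1 _ hs').map (starRingEnd ℂ) Complex.continuous_conj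
        refine (congrArg (fun g => HasProd g (cj (L q χ) s)) (funext fun p => ?_)).mpr h2
        exact dual_eq P χ s p
      obtain ⟨h1, h2⟩ := key a α ha haM hα
      obtain ⟨h3, h4⟩ := key b β hb hbM hβ
      exact (h1.mul h3).mul (h2.mul h4)
  · intro ε hε
    obtain ⟨q0, hq0⟩ := hG.nv ε hε
    refine ⟨q0, fun a b h1 h2 ha hb haM hbM α β hα hβ oα oβ h0 => ?_⟩
    refine (hzero a α b β ha.le hb.le haM hbM hα hβ).1 h0 ?_
    have e1 : G a α = 0 := hq0 a h1 ha haM α hα oα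
    have e2 : G b β = 0 := hq0 b h2 hb hbM β hβ oβ
    rw [e1, e2]
  · obtain ⟨C, c, hC, hc, h⟩ := Pool.Agent.Y683.AA.average hM1 hG
    refine ⟨4 * C, c, by positivity, hc, fun X hX => ?_⟩
    have hX' : ((∑ᶠ x ∈ Characters M X, G x.1 x.2 : ℕ) : ℝ) ≤
        C * Real.exp (-c * (Real.log X) ^ ((1 : ℝ) / 3)) * (Characters M X).ncard := h X hX
    have hfin : (Characters M X).Finite := Pool.Agent.X309.DC.prim_finite M X
    set s : Finset (Σ q : ℕ, DirichletCharacter ℂ q) := hfin.toFinset with hs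
    have hmem : ∀ x, x ∈ s ↔ x ∈ Characters M X := fun x => hfin.mem_toFinset
    have hset : (Characters M X ×ˢ Characters M X) = ((s ×ˢ s : Finset _) :
        Set ((Σ q : ℕ, DirichletCharacter ℂ q) × (Σ q : ℕ, DirichletCharacter ℂ q))) := by
      ext y
      simp [hmem]
    have hcs : Characters M X = ((s : Finset _) : Set (Σ q : ℕ, DirichletCharacter ℂ q)) := by
      ext y
      simp [hmem]
    have hcard : (Characters M X).ncard = s.card := by
      rw [hcs, Set.ncard_coe_finset]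
    have hsum1 : (∑ᶠ x ∈ Characters M X, G x.1 x.2 : ℕ) = ∑ x ∈ s, G x.1 x.2 := by
      rw [hcs, finsum_mem_coe_finset]
    have hsum2 : (∑ᶠ y ∈ Characters M X ×ˢ Characters M X,
        analyticOrderNatAt (T y.1.1 y.1.2 y.2.1 y.2.2) P.m : ℕ) =
        4 * s.card * ∑ x ∈ s, G x.1 x.2 := by
      rw [hset, finsum_mem_coe_finset]
      have e1 : ∀ y ∈ s ×ˢ s, analyticOrderNatAt (T y.1.1 y.1.2 y.2.1 y.2.2) P.m =
          2 * (G y.1.1 y.1.2 + G y.2.1 y.2.2) := by
        intro y hy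
        rw [Finset.mem_product, hmem, hmem] at hy
        obtain ⟨⟨h1, h2, h3, h4⟩, h5, h6, h7, h8⟩ := hy
        exact hnat _ _ _ _ h1 h5 h3 h7 h4 h8
      rw [Finset.sum_congr rfl e1, ← Finset.mul_sum, Finset.sum_add_distrib,
        Finset.sum_product s s (fun y => G y.1.1 y.1.2),
        Finset.sum_product_right s s (fun y => G y.2.1 y.2.2)]
      simp only [Finset.sum_const, smul_eq_mul]
      rw [← Finset.mul_sum]
      ring
    have hav : ((∑ᶠ y ∈ Characters M X ×ˢ Characters M X,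
        analyticOrderNatAt (T y.1.1 y.1.2 y.2.1 y.2.2) P.m : ℕ) : ℝ) ≤
        4 * C * Real.exp (-c * (Real.log X) ^ ((1 : ℝ) / 3)) *
          ((Characters M X).ncard : ℝ) ^ 2 := by
      rw [hsum2]
      rw [hsum1, hcard] at hX'
      rw [hcard]
      push_cast
      push_cast at hX'
      have h9 : (0 : ℝ) ≤ 4 * (s.card : ℝ) := mul_nonneg (by norm_num) (Nat.cast_nonneg _)
      calc (4 : ℝ) * s.card * ∑ x ∈ s, (G x.1 x.2 : ℝ)
          ≤ 4 * s.card * (C * Real.exp (-c * (Real.log X) ^ ((1 : ℝ) / 3)) * s.card) :=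
            mul_le_mul_of_nonneg_left hX' h9
        _ = _ := by ring
    refine ⟨le_trans ?_ hav, hav⟩
    have hcount : {y ∈ Characters M X ×ˢ Characters M X |
        T y.1.1 y.1.2 y.2.1 y.2.2 P.m = 0}.ncard ≤
        (∑ᶠ y ∈ Characters M X ×ˢ Characters M X,
          analyticOrderNatAt (T y.1.1 y.1.2 y.2.1 y.2.2) P.m : ℕ) := by
      have e2 : {y ∈ Characters M X ×ˢ Characters M X |
          T y.1.1 y.1.2 y.2.1 y.2.2 P.m = 0} =
          (((s ×ˢ s).filter fun y => T y.1.1 y.1.2 y.2.1 y.2.2 P.m = 0 : Finset _) :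
            Set ((Σ q : ℕ, DirichletCharacter ℂ q) × (Σ q : ℕ, DirichletCharacter ℂ q))) := by
        ext y
        simp [hmem]
      rw [e2, Set.ncard_coe_finset, hset, finsum_mem_coe_finset, Finset.card_eq_sum_ones,
        Finset.sum_filter]
      refine Finset.sum_le_sum fun y hy => ?_
      split_ifs with h0
      · rw [Finset.mem_product, hmem, hmem] at hy
        obtain ⟨⟨h1, h2, h3, h4⟩, h5, h6, h7, h8⟩ := hy
        have h10 := (hzero _ _ _ _ h1 h5 h3 h7 h4 h8).1 h0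
        rw [hnat _ _ _ _ h1 h5 h3 h7 h4 h8]
        omega
      · exact Nat.zero_le _
    exact_mod_cast hcount

end Pool.Agent.Results.MP_60ff09_nt.EisensteinTriples
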