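import Pool.Agent.X284.KS.Fam2
import Pool.Agent.X284.TP.Smooth
import Pool.Agent.Y683.AA.TWc

/-!
# Triple products with Eisenstein series of weight one ramified at given primes

Let `f` be a newform of even weight `k = 2m`, level `N` and character `χ_f`, and let `α`, `β` be
primitive Dirichlet characters of opposite parity and of conductors prime to `N`.  The Eisenstein
series `g = E_1(1, (χ_f α β)⁻¹)` and `h = E_1(α, β)` have weight one, `χ_f χ_g χ_h = 1` and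
`V_g ⊗ V_h = α ⊕ β ⊕ (χ_f α)⁻¹ ⊕ (χ_f β)⁻¹`.  Since `f ⊗ χ_f⁻¹` is the complex conjugate of `f`,
`L(f ⊗ g ⊗ h, s) = L(f ⊗ α, s) L(f ⊗ β, s) conj(L(f ⊗ α, conj s)) conj(L(f ⊗ β, conj s))`.

For every finite set `S` of primes not dividing `N` and all `α`, `β` unramified outside `S` the order
of vanishing of this function at `s = m = k/2` is bounded by `C (∏_{p ∈ S} p)^(4 + ε)`, and it is `0`
unless `α` or `β` belongs to a set of at most `C (∏_{p ∈ S} p)^(4 + ε)` characters.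
-/

set_option autoImplicit false

open Complex UpperHalfPlane MatrixGroups CongruenceSubgroup

namespace Pool.Agent.Results.MP_60ff09_nt.TriplesUnramifiedOutsideS

/-- The `n`-th Fourier coefficient of `f`. -/
noncomputable def coef {N : ℕ} {k : ℤ} (f : CuspForm (Gamma1 N : Subgroup (GL (Fin 2) ℝ)) k)
    (n : ℕ) : ℂ :=
  (qExpansion 1 f).coeff n

/-- `f ∈ S_{2m}(Γ₁(N))` is a newform of level `N` with character `η`: the Fourier coefficients
`c(n)` satisfy `c(1) = 1`, `c(ab) = c(a) c(b)` for coprime `a`, `b`,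
`c(p^(j+2)) = c(p) c(p^(j+1)) - η(p) p^(2m-1) c(p^j)`; for the primes `p ∤ N`
`conj c(p) = conj η(p) c(p)` and `|c(p)| ≤ 2 p^((2m-1)/2)` (Eichler, Shimura, Deligne), for the
primes `p ∣ N` `|c(p)| ≤ p^((2m-1)/2)`; `f(γτ) = η(d) (cτ + d)^(2m) f(τ)` for
`γ = (a b; c d) ∈ Γ₀(N)`; and the Fricke involution takes `f` to a multiple of `f^c`,
`f^c(τ) = conj f(-conj τ)` (Atkin, Lehner, Li):
`f(-1/(Nτ)) = (-1)^m w N^m τ^(2m) f^c(τ)` with `|w| = 1`. -/
structure IsNewform (m N : ℕ) (η : DirichletCharacter ℂ N)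
    (f : CuspForm (Gamma1 N : Subgroup (GL (Fin 2) ℝ)) (2 * m : ℤ)) (w : ℂ) : Prop where
  one : coef f 1 = 1
  mul : ∀ a b : ℕ, Nat.Coprime a b → coef f (a * b) = coef f a * coef f b
  pow : ∀ p j : ℕ, p.Prime → coef f (p ^ (j + 2)) = coef f p * coef f (p ^ (j + 1)) -
    η (p : ZMod N) * (p : ℂ) ^ (2 * m - 1) * coef f (p ^ j)
  conj : ∀ p : ℕ, p.Prime → ¬ p ∣ N → (starRingEnd ℂ) (coef f p) =
    (starRingEnd ℂ) (η (p : ZMod N)) * coef f p
  good : ∀ p : ℕ, p.Prime → ¬ p ∣ N → ‖coef f p‖ ≤ 2 * (p : ℝ) ^ ((2 * m - 1 : ℝ) / 2)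
  bad : ∀ p : ℕ, p.Prime → p ∣ N → ‖coef f p‖ ≤ (p : ℝ) ^ ((2 * m - 1 : ℝ) / 2)
  neb : ∀ γ : SL(2, ℤ), γ ∈ Gamma0 N → ∀ τ : ℍ, f (γ • τ) = η ((γ 1 1 : ℤ) : ZMod N) *
    (((γ 1 0 : ℤ) : ℂ) * (τ : ℂ) + ((γ 1 1 : ℤ) : ℂ)) ^ (2 * m) * f τ
  norm : ‖w‖ = 1
  fricke : ∀ τ τ' τc : ℍ, (τ' : ℂ) * ((N : ℂ) * (τ : ℂ)) = -1 →
    (τc : ℂ) = -(starRingEnd ℂ) (τ : ℂ) →
    f τ' = (-1 : ℂ) ^ m * w * (N : ℂ) ^ m * (τ : ℂ) ^ (2 * m) * (starRingEnd ℂ) (f τc)

/-- A newform `f` of even weight `2m ≥ 2`, level `N ≥ 1` and character `η`. -/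
structure Newform where
  /-- the level -/
  N : ℕ
  N_ne : N ≠ 0
  /-- half of the weight -/
  m : ℕ
  m_pos : 1 ≤ m
  /-- the character -/
  η : DirichletCharacter ℂ N
  /-- the form -/
  f : CuspForm (Gamma1 N : Subgroup (GL (Fin 2) ℝ)) (2 * m : ℤ)
  /-- the constant of the Fricke involution -/
  w : ℂ
  newform : IsNewform m N η f w

/-- The Euler factor at the prime `p` of the `L`-function of `f ⊗ χ`:
`(1 - χ(p) c(p) p^(-s) + χ(p)² η(p) p^(2m-1) p^(-2s))⁻¹`. -/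
noncomputable def Newform.factor (P : Newform) {q : ℕ} (χ : DirichletCharacter ℂ q) (s : ℂ)
    (p : ℕ) : ℂ :=
  (1 - χ (p : ZMod q) * coef P.f p * (p : ℂ) ^ (-s) +
    χ (p : ZMod q) ^ 2 * (P.η (p : ZMod P.N) * (p : ℂ) ^ (2 * P.m - 1)) * (p : ℂ) ^ (-2 * s))⁻¹

/-- The Euler factor at the prime `p` of the `L`-function of the complex conjugate of `f ⊗ χ`, which
is `f ⊗ (χ_f χ)⁻¹`:
`(1 - conj(χ(p) c(p)) p^(-s) + conj(χ(p)² η(p)) p^(2m-1) p^(-2s))⁻¹`. -/
noncomputable def Newform.dual (P : Newform) {q : ℕ} (χ : DirichletCharacter ℂ q) (s : ℂ)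
    (p : ℕ) : ℂ :=
  (1 - (starRingEnd ℂ) (χ (p : ZMod q) * coef P.f p) * (p : ℂ) ^ (-s) +
    (starRingEnd ℂ) (χ (p : ZMod q) ^ 2 * P.η (p : ZMod P.N)) * (p : ℂ) ^ (2 * P.m - 1) *
      (p : ℂ) ^ (-2 * s))⁻¹

/-- The Euler factor at the prime `p` of the `L`-function of
`V_f ⊗ (α ⊕ β ⊕ (χ_f α)⁻¹ ⊕ (χ_f β)⁻¹)`, for primitive `α`, `β` of conductors prime to `N`.  If `α`,
`β` have opposite parity, this is the triple product `L`-function of `f` and of the Eisenstein series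
`g = E_1(1, (χ_f α β)⁻¹)` and `h = E_1(α, β)` of weight one. -/
noncomputable def Newform.triple (P : Newform) {a b : ℕ} (α : DirichletCharacter ℂ a)
    (β : DirichletCharacter ℂ b) (s : ℂ) (p : ℕ) : ℂ :=
  P.factor α s p * P.factor β s p * (P.dual α s p * P.dual β s p)

/-- the same newform in the library -/
noncomputable def Newform.lib (P : Newform) : Pool.Agent.X284.KS.Newform :=
  have : NeZero P.N := ⟨P.N_ne⟩
  { N := P.N
    m := P.m
    m_pos := P.m_pos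
    η := P.η
    f := P.f
    w := P.w
    newf := ⟨P.newform.one, P.newform.mul, P.newform.pow, P.newform.conj, P.newform.good,
      P.newform.bad, P.newform.neb, P.newform.norm, P.newform.fricke⟩ }

theorem factor_eq (P : Newform) {q : ℕ} (χ : DirichletCharacter ℂ q) (s : ℂ) (p : ℕ) :
    P.factor χ s p = Pool.Agent.X284.KS.eulN (Pool.Agent.W192.CY.cf P.lib.f) P.lib.u q χ s p := by
  have e : (p : ℂ) ^ (-2 * s) = ((p : ℂ) ^ (-s)) ^ 2 := by
    rw [show -2 * s = ((2 : ℕ) : ℂ) * (-s) by push_cast; ring, Complex.cpow_nat_mul]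
  unfold Newform.factor Pool.Agent.X284.KS.eulN
  have e2 : χ (p : ZMod q) ^ 2 * (P.η (p : ZMod P.N) * (p : ℂ) ^ (2 * P.m - 1)) *
      (p : ℂ) ^ (-2 * s) = χ (p : ZMod q) ^ 2 * (P.lib.u p * ((p : ℂ) ^ (-s)) ^ 2) := by
    rw [e, mul_assoc]
    rfl
  rw [e2]
  rfl

theorem dual_eq (P : Newform) {q : ℕ} (χ : DirichletCharacter ℂ q) (s : ℂ) (p : ℕ) :
    P.dual χ s p = (starRingEnd ℂ) (P.factor χ ((starRingEnd ℂ) s) p) := by
  have hc : ∀ z : ℂ, (starRingEnd ℂ) ((p : ℂ) ^ ((starRingEnd ℂ) z)) = (p : ℂ) ^ z := by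
    intro z
    have h1 := Complex.cpow_conj (p : ℂ) z (by rw [Complex.natCast_arg]; exact Real.pi_pos.ne)
    rw [h1, Complex.conj_natCast, Complex.conj_conj]
  unfold Newform.dual Newform.factor
  rw [map_inv₀, map_add, map_sub, map_one]
  have h1 : -(starRingEnd ℂ) s = (starRingEnd ℂ) (-s) := by rw [map_neg]
  have h2 : -2 * (starRingEnd ℂ) s = (starRingEnd ℂ) (-2 * s) := by
    rw [map_mul, map_neg, map_ofNat]
  have e1 : (starRingEnd ℂ) (χ (p : ZMod q) * coef P.f p * (p : ℂ) ^ ((starRingEnd ℂ) (-s))) =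
      (starRingEnd ℂ) (χ (p : ZMod q) * coef P.f p) * (p : ℂ) ^ (-s) := by
    rw [map_mul _ _ ((p : ℂ) ^ ((starRingEnd ℂ) (-s))), hc]
  have e2 : (starRingEnd ℂ) (χ (p : ZMod q) ^ 2 * (P.η (p : ZMod P.N) *
      (p : ℂ) ^ (2 * P.m - 1)) * (p : ℂ) ^ ((starRingEnd ℂ) (-2 * s))) =
      (starRingEnd ℂ) (χ (p : ZMod q) ^ 2 * P.η (p : ZMod P.N)) * (p : ℂ) ^ (2 * P.m - 1) *
        (p : ℂ) ^ (-2 * s) := by
    rw [map_mul _ _ ((p : ℂ) ^ ((starRingEnd ℂ) (-2 * s))), hc, ← mul_assoc (χ (p : ZMod q) ^ 2),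
      map_mul _ _ ((p : ℂ) ^ (2 * P.m - 1)), map_pow _ (p : ℂ), Complex.conj_natCast]
  rw [h1, h2, e1, e2]

open Pool.Agent.Y683.AA (cj diff_cj order_cj)

/-- **Main theorem.** Let `f` be a newform of even weight `2m`, level `N` and arbitrary character
`χ_f`.  There are functions `T α β`, for all primitive Dirichlet characters `α`, `β` of conductors
prime to `N`, with the following properties.

* `T α β` is entire, does not vanish identically and is for `Re s > m + 1/2` the Euler product of the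
  factors of the `L`-function of `V_f ⊗ (α ⊕ β ⊕ (χ_f α)⁻¹ ⊕ (χ_f β)⁻¹)`.
* For every `ε > 0` there is a `C` such that for every finite set `S` of primes not dividing `N` there
  is a set `E` of at most `C (∏_{p ∈ S} p)^(4 + ε)` Dirichlet characters such that for all primitive
  `α`, `β` whose conductors are products of powers of primes in `S`, the order of vanishing of
  `T α β` at `s = m` is at most `C (∏_{p ∈ S} p)^(4 + ε)`, and `T α β m ≠ 0` unless `α` or `β` belongs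
  to `E`. -/
theorem result (P : Newform) :
    ∃ T : (a : ℕ) → DirichletCharacter ℂ a → (b : ℕ) → DirichletCharacter ℂ b → ℂ → ℂ,
      (∀ (a : ℕ) (α : DirichletCharacter ℂ a) (b : ℕ) (β : DirichletCharacter ℂ b),
        1 ≤ a → 1 ≤ b → Nat.Coprime a P.N → Nat.Coprime b P.N → α.IsPrimitive → β.IsPrimitive →
        Differentiable ℂ (T a α b β) ∧ analyticOrderAt (T a α b β) P.m ≠ ⊤ ∧
        ∀ s : ℂ, (P.m : ℝ) + 1 / 2 < s.re →
          HasProd (fun p : Nat.Primes => P.triple α β s p) (T a α b β s)) ∧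
      ∀ ε : ℝ, 0 < ε → ∃ C : ℝ, 0 < C ∧ ∀ S : Finset ℕ, (∀ p ∈ S, p.Prime ∧ ¬ p ∣ P.N) →
        ∃ E : Finset (Σ q : ℕ, DirichletCharacter ℂ q),
          (E.card : ℝ) ≤ C * (∏ p ∈ S, (p : ℝ)) ^ (4 + ε) ∧
          ∀ (a : ℕ) (α : DirichletCharacter ℂ a) (b : ℕ) (β : DirichletCharacter ℂ b),
            1 ≤ a → 1 ≤ b → a.primeFactors ⊆ S → b.primeFactors ⊆ S →
            α.IsPrimitive → β.IsPrimitive →
            (analyticOrderNatAt (T a α b β) P.m : ℝ) ≤ C * (∏ p ∈ S, (p : ℝ)) ^ (4 + ε) ∧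
            (⟨a, α⟩ ∉ E → ⟨b, β⟩ ∉ E → T a α b β P.m ≠ 0) := by
  classical
  obtain ⟨K0, L, hK0, hL, hG⟩ := Pool.Agent.X284.KS.single P.lib
  set M : ℕ := P.N with hM
  have hM1 : 1 ≤ M := Nat.one_le_iff_ne_zero.2 P.N_ne
  set G : (q : ℕ) → DirichletCharacter ℂ q → ℕ := fun q χ => analyticOrderNatAt (L q χ) P.m with hGd
  set T : (a : ℕ) → DirichletCharacter ℂ a → (b : ℕ) → DirichletCharacter ℂ b → ℂ → ℂ :=
    fun a α b β s => L a α s * L b β s * (cj (L a α) s * cj (L b β) s) with hT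
  have hreal : (starRingEnd ℂ) (P.m : ℂ) = P.m := Complex.conj_natCast _
  have hord : ∀ (a : ℕ) (α : DirichletCharacter ℂ a) (b : ℕ) (β : DirichletCharacter ℂ b),
      1 ≤ a → 1 ≤ b → Nat.Coprime a M → Nat.Coprime b M → α.IsPrimitive → β.IsPrimitive →
      analyticOrderAt (T a α b β) P.m = ((2 * (G a α + G b β) : ℕ) : ℕ∞) := by
    intro a α b β ha hb haM hbM hα hβ
    obtain ⟨dα, -, nα⟩ := hL a α ha haM hα
    obtain ⟨dβ, -, nβ⟩ := hL b β hb hbM hβ
    have aα : AnalyticAt ℂ (L a α) P.m := dα.analyticAt _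
    have aβ : AnalyticAt ℂ (L b β) P.m := dβ.analyticAt _
    have bα : AnalyticAt ℂ (cj (L a α)) P.m := (diff_cj dα).analyticAt _
    have bβ : AnalyticAt ℂ (cj (L b β)) P.m := (diff_cj dβ).analyticAt _
    have oα : analyticOrderAt (L a α) P.m = (G a α : ℕ∞) :=
      (Nat.cast_analyticOrderNatAt nα).symm
    have oβ : analyticOrderAt (L b β) P.m = (G b β : ℕ∞) :=
      (Nat.cast_analyticOrderNatAt nβ).symm
    have cα : analyticOrderAt (cj (L a α)) P.m = (G a α : ℕ∞) := by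
      rw [order_cj (dα.analyticAt _), hreal, oα]
    have cβ : analyticOrderAt (cj (L b β)) P.m = (G b β : ℕ∞) := by
      rw [order_cj (dβ.analyticAt _), hreal, oβ]
    have e : T a α b β = (L a α * L b β) * (cj (L a α) * cj (L b β)) := rfl
    rw [e, analyticOrderAt_mul (aα.mul aβ) (bα.mul bβ), analyticOrderAt_mul aα aβ,
      analyticOrderAt_mul bα bβ, oα, oβ, cα, cβ]
    norm_cast
    ring
  have hnat : ∀ (a : ℕ) (α : DirichletCharacter ℂ a) (b : ℕ) (β : DirichletCharacter ℂ b),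
      1 ≤ a → 1 ≤ b → Nat.Coprime a M → Nat.Coprime b M → α.IsPrimitive → β.IsPrimitive →
      analyticOrderNatAt (T a α b β) P.m = 2 * (G a α + G b β) := by
    intro a α b β ha hb haM hbM hα hβ
    have h1 := hord a α b β ha hb haM hbM hα hβ
    unfold analyticOrderNatAt
    rw [h1]
    rfl
  have hdiff : ∀ (a : ℕ) (α : DirichletCharacter ℂ a) (b : ℕ) (β : DirichletCharacter ℂ b),
      1 ≤ a → 1 ≤ b → Nat.Coprime a M → Nat.Coprime b M → α.IsPrimitive → β.IsPrimitive →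
      Differentiable ℂ (T a α b β) := by
    intro a α b β ha hb haM hbM hα hβ
    have dα := (hL a α ha haM hα).1
    have dβ := (hL b β hb hbM hβ).1
    exact (dα.mul dβ).mul ((diff_cj dα).mul (diff_cj dβ))
  have hzero : ∀ (a : ℕ) (α : DirichletCharacter ℂ a) (b : ℕ) (β : DirichletCharacter ℂ b),
      1 ≤ a → 1 ≤ b → Nat.Coprime a M → Nat.Coprime b M → α.IsPrimitive → β.IsPrimitive →
      (T a α b β P.m = 0 ↔ G a α + G b β ≠ 0) := by
    intro a α b β ha hb haM hbM hα hβ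
    have h2 := ((hdiff a α b β ha hb haM hbM hα hβ).analyticAt (P.m : ℂ)).analyticOrderAt_eq_zero
    rw [hord a α b β ha hb haM hbM hα hβ] at h2
    constructor
    · intro h3 h4
      rw [h4] at h2
      exact h2.1 rfl h3
    · intro h3
      by_contra h4
      have h5 := h2.2 h4
      have h6 : 2 * (G a α + G b β) = 0 := by exact_mod_cast h5
      exact h3 (by omega)
  refine ⟨T, ?_, ?_⟩
  · intro a α b β ha hb haM hbM hα hβ
    refine ⟨hdiff a α b β ha hb haM hbM hα hβ, ?_, ?_⟩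
    · rw [hord a α b β ha hb haM hbM hα hβ]
      exact ENat.natCast_ne_top _
    · intro s hs
      have hs' : (P.m : ℝ) + 1 / 2 < ((starRingEnd ℂ) s).re := by rwa [Complex.conj_re]
      have key : ∀ (q : ℕ) (χ : DirichletCharacter ℂ q), 1 ≤ q → Nat.Coprime q M →
          χ.IsPrimitive → HasProd (fun p : Nat.Primes => P.factor χ s p) (L q χ s) ∧
            HasProd (fun p : Nat.Primes => P.dual χ s p) (cj (L q χ) s) := by
        intro q χ hq hqM hχ
        have h1 : ∀ z : ℂ, (P.m : ℝ) + 1 / 2 < z.re →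
            HasProd (fun p : Nat.Primes => P.factor χ z p) (L q χ z) := by
          intro z hz
          refine (congrArg (fun g => HasProd g (L q χ z)) (funext fun p => ?_)).mpr
            ((hL q χ hq hqM hχ).2.1 z hz)
          exact factor_eq P χ _ p
        refine ⟨h1 s hs, ?_⟩
        have h2 := (h1 _ hs').map (starRingEnd ℂ) Complex.continuous_conj
        refine (congrArg (fun g => HasProd g (cj (L q χ) s)) (funext fun p => ?_)).mpr h2
        exact dual_eq P χ s p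
      obtain ⟨h1, h2⟩ := key a α ha haM hα
      obtain ⟨h3, h4⟩ := key b β hb hbM hβ
      exact (h1.mul h3).mul (h2.mul h4)
  · intro ε hε
    obtain ⟨C, hC, h⟩ := Pool.Agent.X284.TP.smooth_exc hG hε
    refine ⟨4 * C, by positivity, fun S hS => ?_⟩
    obtain ⟨E, hE, hx⟩ := h S hS
    have hP0 : (0 : ℝ) ≤ (∏ p ∈ S, (p : ℝ)) ^ (4 + ε) :=
      Real.rpow_nonneg (Finset.prod_nonneg fun p _ => Nat.cast_nonneg p) _
    have hCP : (0 : ℝ) ≤ C * (∏ p ∈ S, (p : ℝ)) ^ (4 + ε) := mul_nonneg hC.le hP0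
    have hcop : ∀ q : ℕ, 1 ≤ q → q.primeFactors ⊆ S → Nat.Coprime q M := by
      intro q hq hqS
      rw [Nat.coprime_iff_gcd_eq_one]
      by_contra hne
      obtain ⟨p, hp, hpd⟩ := Nat.exists_prime_and_dvd hne
      have h1 : p ∣ q := hpd.trans (Nat.gcd_dvd_left _ _)
      have h2 : p ∣ M := hpd.trans (Nat.gcd_dvd_right _ _)
      exact (hS p (hqS (Nat.mem_primeFactors.2 ⟨hp, h1, by omega⟩))).2 h2
    refine ⟨E, by nlinarith, fun a α b β ha hb haS hbS hα hβ => ?_⟩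
    have haM := hcop a ha haS
    have hbM := hcop b hb hbS
    obtain ⟨g1, g2⟩ := hx ⟨a, α⟩ ha haS hα
    obtain ⟨g3, g4⟩ := hx ⟨b, β⟩ hb hbS hβ
    refine ⟨?_, fun n1 n2 h0 => ?_⟩
    · rw [hnat a α b β ha hb haM hbM hα hβ]
      have g1' : (G a α : ℝ) ≤ C * (∏ p ∈ S, (p : ℝ)) ^ (4 + ε) := g1
      have g3' : (G b β : ℝ) ≤ C * (∏ p ∈ S, (p : ℝ)) ^ (4 + ε) := g3
      push_cast
      linarith
    · refine (hzero a α b β ha hb haM hbM hα hβ).1 h0 ?_
      have e1 : G a α = 0 := g2 n1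
      have e2 : G b β = 0 := g4 n2
      rw [e1, e2]

end Pool.Agent.Results.MP_60ff09_nt.TriplesUnramifiedOutsideS
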